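import Mathlib
import Pool.Agent.R4400.Def
import Pool.Agent.R4400.Gain

set_option autoImplicit false

namespace Pool.Agent.Results.MP_4400a6_co.KingOfTheHill

open Pool.Agent.R4400

/-- For every `ε ∈ [0,1/2]`, the manipulability `α₂(𝒯^ε)` of Randomized King of the Hill is
`ε/3 + 2ε²/3`, and the supremum in its definition is attained. -/
theorem result (ε : ℝ) (h0 : 0 ≤ ε) (h1 : ε ≤ 1 / 2) :
    alpha ε = ε / 3 + 2 * ε ^ 2 / 3 ∧ IsGreatest (gains ε) (ε / 3 + 2 * ε ^ 2 / 3) := by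
  have h : IsGreatest (gains ε) (ε / 3 + 2 * ε ^ 2 / 3) :=
    ⟨gain_attained h0 h1, fun _ hg => gain_le h0 h1 hg⟩
  exact ⟨h.csSup_eq, h⟩

end Pool.Agent.Results.MP_4400a6_co.KingOfTheHill
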